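import Mathlib

/-!
Krohn-Rhodes for finite aperiodic monoids (only reset registers), by local divisors
(Diekert, Kufleitner, Steinberg).
-/

namespace Pool.Agent.Helper45.KR

/-- Contents of `m` registers with values in `V`. -/
def St (V : Type) : ℕ → Type
  | 0 => Unit
  | m + 1 => St V m × V

/-- Cascades of `m` reset registers with values in `V` over the input alphabet `A`:
the top register is kept (`none`) or overwritten (`some v`), depending on the letter and
the lower registers only. -/
def Casc (A V : Type) : ℕ → Type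
  | 0 => Unit
  | m + 1 => Casc A V m × (A → St V m → Option V)

/-- One step of a cascade. -/
def step {A V : Type} : (m : ℕ) → Casc A V m → A → St V m → St V m
  | 0, _, _, s => s
  | m + 1, c, a, s => (step m c.1 a s.1, (c.2 a s.1).getD s.2)

/-- The state after reading the word `w` from left to right. -/
def run {A V : Type} (m : ℕ) (c : Casc A V m) (s : St V m) (w : List A) : St V m :=
  w.foldl (fun s a => step m c a s) s

theorem run_nil {A V : Type} (m : ℕ) (c : Casc A V m) (s : St V m) : run m c s [] = s := rfl

theorem run_snoc {A V : Type} (m : ℕ) (c : Casc A V m) (s : St V m) (w : List A) (a : A) :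
    run m c s (w ++ [a]) = step m c a (run m c s w) := by
  simp [run, List.foldl_append]

/-! ### Resetting a cascade on a set of letters -/

/-- The cascade which goes to the state `s0` on the letters in `P`. -/
def resetC {A V : Type} (P : A → Prop) [DecidablePred P] :
    (m : ℕ) → Casc A V m → St V m → Casc A V m
  | 0, _, _ => ()
  | m + 1, c, s0 => (resetC P m c.1 s0.1, fun a s => if P a then some s0.2 else c.2 a s)

theorem step_resetC {A V : Type} (P : A → Prop) [DecidablePred P] :
    ∀ (m : ℕ) (c : Casc A V m) (s0 : St V m) (a : A) (s : St V m),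
      step m (resetC P m c s0) a s = if P a then s0 else step m c a s
  | 0, c, s0, a, s => (fun (x y : Unit) => (rfl : x = y))
      (step 0 (resetC P 0 c s0) a s) (if P a then s0 else step 0 c a s)
  | m + 1, c, s0, a, s => by
      simp only [step, resetC, step_resetC P m]
      by_cases h : P a <;> simp [h]

/-! ### Series composition -/

/-- lower part of a state -/
def fstS {V : Type} {m1 : ℕ} : (m2 : ℕ) → St V (m1 + m2) → St V m1
  | 0, s => s
  | m2 + 1, s => fstS m2 s.1

/-- upper part of a state -/
def sndS {V : Type} {m1 : ℕ} : (m2 : ℕ) → St V (m1 + m2) → St V m2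
  | 0, _ => ()
  | m2 + 1, s => (sndS (m1 := m1) m2 s.1, s.2)

/-- state from two parts -/
def mkS {V : Type} {m1 : ℕ} : (m2 : ℕ) → St V m1 → St V m2 → St V (m1 + m2)
  | 0, s, _ => s
  | m2 + 1, s, t => (mkS m2 s t.1, t.2)

theorem fstS_mkS {V : Type} {m1 : ℕ} : ∀ (m2 : ℕ) (s : St V m1) (t : St V m2),
    fstS m2 (mkS m2 s t) = s
  | 0, _, _ => rfl
  | m2 + 1, s, t => fstS_mkS m2 s t.1

theorem sndS_mkS {V : Type} {m1 : ℕ} : ∀ (m2 : ℕ) (s : St V m1) (t : St V m2),
    sndS m2 (mkS m2 s t) = t
  | 0, _, _ => rfl
  | m2 + 1, s, t => by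
      show (sndS m2 (mkS m2 s t.1), t.2) = t
      rw [sndS_mkS m2 s t.1]
      rfl

/-- The cascade `c1`, and above it `c2`, fed with the letter `h a s` (`none`: nothing). -/
def comp {A B V : Type} {m1 : ℕ} (c1 : Casc A V m1) (h : A → St V m1 → Option B) :
    (m2 : ℕ) → Casc B V m2 → Casc A V (m1 + m2)
  | 0, _ => c1
  | m2 + 1, c2 => (comp c1 h m2 c2.1, fun a s =>
      match h a (fstS m2 s) with
      | none => none
      | some b => c2.2 b (sndS (m1 := m1) m2 s))

theorem fstS_step_comp {A B V : Type} {m1 : ℕ} (c1 : Casc A V m1)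
    (h : A → St V m1 → Option B) : ∀ (m2 : ℕ) (c2 : Casc B V m2) (a : A) (s : St V (m1 + m2)),
    fstS m2 (step (m1 + m2) (comp c1 h m2 c2) a s) = step m1 c1 a (fstS m2 s)
  | 0, _, _, _ => rfl
  | m2 + 1, c2, a, s => fstS_step_comp c1 h m2 c2.1 a s.1

theorem sndS_step_comp {A B V : Type} {m1 : ℕ} (c1 : Casc A V m1)
    (h : A → St V m1 → Option B) : ∀ (m2 : ℕ) (c2 : Casc B V m2) (a : A) (s : St V (m1 + m2)),
    sndS m2 (step (m1 + m2) (comp c1 h m2 c2) a s) =
      match h a (fstS m2 s) with
      | none => sndS m2 s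
      | some b => step m2 c2 b (sndS m2 s)
  | 0, _, a, s => by
      cases h a (fstS 0 s) <;> rfl
  | m2 + 1, c2, a, s => by
      show (sndS m2 (step (m1 + m2) (comp c1 h m2 c2.1) a s.1),
        (match h a (fstS m2 s.1) with
          | none => none
          | some b => c2.2 b (sndS (m1 := m1) m2 s.1)).getD s.2) = _
      rw [sndS_step_comp c1 h m2 c2.1 a s.1]
      show _ = match h a (fstS m2 s.1) with
        | none => sndS (m2 + 1) s
        | some b => step (m2 + 1) c2 b (sndS (m2 + 1) s)
      cases h a (fstS m2 s.1) with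
      | none => rfl
      | some b => rfl

/-! ### Local divisors -/

/-- The local divisor `z M ∩ M z` with multiplication `(r z) ∘ (z q) = r z q`. -/
def LD (M : Type) [Monoid M] (z : M) : Type := {p : M // (∃ q, p = z * q) ∧ ∃ r, p = r * z}

namespace LD

variable {M : Type} [Monoid M] {z : M}

theorem ext {p p' : LD M z} (h : p.1 = p'.1) : p = p' := Subtype.ext h

/-- multiplication -/
noncomputable def mul (p p' : LD M z) : LD M z :=
  ⟨Classical.choose p.2.2 * p'.1, by
    obtain ⟨q', hq'⟩ := p'.2.1
    obtain ⟨q, hq⟩ := p.2.1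
    have hr := Classical.choose_spec p.2.2
    refine ⟨q * q', ?_⟩
    rw [← mul_assoc, ← hq, hq', ← mul_assoc, ← hr], by
    obtain ⟨r', hr'⟩ := p'.2.2
    exact ⟨Classical.choose p.2.2 * r', by rw [mul_assoc, ← hr']⟩⟩

theorem mul_val_left (p p' : LD M z) {r : M} (hr : p.1 = r * z) : (mul p p').1 = r * p'.1 := by
  obtain ⟨q', hq'⟩ := p'.2.1
  have h := Classical.choose_spec p.2.2
  show Classical.choose p.2.2 * p'.1 = r * p'.1
  rw [hq', ← mul_assoc, ← mul_assoc, ← h, ← hr]

theorem mul_val_right (p p' : LD M z) {q : M} (hq : p'.1 = z * q) :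
    (mul p p').1 = p.1 * q := by
  obtain ⟨r, hr⟩ := p.2.2
  rw [mul_val_left p p' hr, hq, hr, mul_assoc]

/-- the neutral element `z` -/
def one : LD M z := ⟨z, ⟨1, by simp⟩, ⟨1, by simp⟩⟩

noncomputable instance : Monoid (LD M z) where
  mul := mul
  one := one
  mul_assoc a b c := by
    apply ext
    obtain ⟨q, hq⟩ := c.2.1
    obtain ⟨r, hr⟩ := a.2.2
    show (mul (mul a b) c).1 = (mul a (mul b c)).1
    rw [mul_val_right _ c hq, mul_val_left a b hr, mul_val_left a (mul b c) hr,
      mul_val_right b c hq, mul_assoc]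
  one_mul a := by
    apply ext
    show (mul one a).1 = a.1
    rw [mul_val_left one a (r := 1) (by simp [one]), one_mul]
  mul_one a := by
    apply ext
    show (mul a one).1 = a.1
    rw [mul_val_right a one (q := 1) (by simp [one]), mul_one]

theorem val_one : (1 : LD M z).1 = z := rfl

theorem val_mul_right (p p' : LD M z) {q : M} (hq : p'.1 = z * q) :
    (p * p').1 = p.1 * q := mul_val_right p p' hq

theorem val_mul_left (p p' : LD M z) {r : M} (hr : p.1 = r * z) :
    (p * p').1 = r * p'.1 := mul_val_left p p' hr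

theorem val_pow (p : LD M z) {r : M} (hr : p.1 = r * z) (n : ℕ) : (p ^ n).1 = r ^ n * z := by
  induction n with
  | zero => simp [val_one]
  | succ n ih => rw [pow_succ', val_mul_left p _ hr, ih, pow_succ', mul_assoc]

theorem aperiodic (h : ∀ x : M, ∃ n : ℕ, x ^ (n + 1) = x ^ n) (p : LD M z) :
    ∃ n : ℕ, p ^ (n + 1) = p ^ n := by
  obtain ⟨r, hr⟩ := p.2.2
  obtain ⟨n, hn⟩ := h r
  exact ⟨n, ext (by rw [val_pow p hr, val_pow p hr, hn])⟩

theorem one_not_mem (h : ∀ x : M, ∃ n : ℕ, x ^ (n + 1) = x ^ n) (hz : z ≠ 1) (p : LD M z) :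
    p.1 ≠ 1 := by
  intro hp
  obtain ⟨⟨q, hq⟩, ⟨r, hr⟩⟩ := p.2
  rw [hp] at hq hr
  -- `z` is a unit
  have hrq : r = q := by
    calc r = r * (z * q) := by rw [← hq, mul_one]
      _ = (r * z) * q := by rw [mul_assoc]
      _ = q := by rw [← hr, one_mul]
  subst hrq
  let u : Mˣ := ⟨z, r, hq.symm, hr.symm⟩
  obtain ⟨n, hn⟩ := h z
  apply hz
  have h1 : (u ^ (n + 1) : Mˣ) = u ^ n := by
    apply Units.ext
    simpa [u] using hn
  have h2 : u = 1 := by
    rw [pow_succ] at h1
    exact mul_eq_left.mp h1
  have := congrArg Units.val h2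
  simpa [u] using this

instance [Finite M] : Finite (LD M z) := Subtype.finite

theorem card_lt [Finite M] (h : ∀ x : M, ∃ n : ℕ, x ^ (n + 1) = x ^ n) (hz : z ≠ 1) :
    Nat.card (LD M z) < Nat.card M := by
  refine Finite.card_subtype_lt (x := (1 : M)) ?_
  rintro ⟨⟨q, hq⟩, ⟨r, hr⟩⟩
  exact one_not_mem h hz ⟨1, ⟨q, hq⟩, ⟨r, hr⟩⟩ rfl

/-- the letter map `v ↦ z v z` -/
def letter (z : M) (v : M) : LD M z := ⟨z * v * z, ⟨v * z, by rw [mul_assoc]⟩, ⟨z * v, rfl⟩⟩

theorem val_mul_letter (p : LD M z) (v : M) : (p * letter z v).1 = p.1 * v * z := by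
  rw [val_mul_right p (letter z v) (q := v * z) (by simp [letter, mul_assoc]), mul_assoc]

end LD

/-! ### The theorem -/

/-- `φ`-products of words over `A` are computed by a cascade over `V`. -/
def Good (V : Type) {M A : Type} [Monoid M] (φ : A → M) : Prop :=
  ∃ (m : ℕ) (c : Casc A V m) (s0 : St V m) (out : St V m → M),
    ∀ w : List A, out (run m c s0 w) = (w.map φ).prod

theorem good_of_one (V : Type) {M A : Type} [Monoid M] (φ : A → M) (h : ∀ a, φ a = 1) :
    Good V φ := by
  refine ⟨0, (), (), fun _ => 1, fun w => ?_⟩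
  induction w with
  | nil => simp
  | cons a w ih => simpa [h a] using ih

open Classical in
theorem good_step (V : Type) (v0 v1 : V) (hv : v0 ≠ v1) {M A : Type} [Monoid M]
    (e : M → V) (d : V → M) (hde : ∀ x, d (e x) = x) (φ : A → M) (z : M)
    (h1 : Good V (fun a => if φ a = z then (1 : M) else φ a))
    (h2 : Good V (LD.letter z)) : Good V φ := by
  obtain ⟨m1, c1, s1, out1, H1⟩ := h1
  obtain ⟨m2, c2, s2, out2, H2⟩ := h2
  let P : A → Prop := fun a => φ a = z
  let cR : Casc A V m1 := resetC P m1 c1 s1
  let cF : Casc A V (m1 + 1) := (cR, fun a _ => if P a then some v1 else none)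
  let cX : Casc A V (m1 + 1 + 1) := (cF, fun a s =>
    if P a ∧ s.2 = v0 then some (e (out1 s.1)) else none)
  let hh : A → St V (m1 + 1 + 1) → Option M := fun a s =>
    if P a ∧ s.1.2 ≠ v0 then some (out1 s.1.1) else none
  let cc : Casc A V (m1 + 1 + 1 + m2) := comp cX hh m2 c2
  let st0 : St V (m1 + 1 + 1 + m2) := mkS (m1 := m1 + 1 + 1) m2 ((s1, v0), v0) s2
  let out : St V (m1 + 1 + 1 + m2) → M := fun s =>
    if (fstS m2 s).1.2 = v0 then out1 (fstS m2 s).1.1
    else d (fstS m2 s).2 * (out2 (sndS m2 s)).1 * out1 (fstS m2 s).1.1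
  refine ⟨m1 + 1 + 1 + m2, cc, st0, out, ?_⟩
  -- the invariant
  have key : ∀ w : List A, ∃ v : List A, (∀ a ∈ v, φ a ≠ z) ∧
      (fstS m2 (run _ cc st0 w)).1.1 = run m1 c1 s1 v ∧
      (((fstS m2 (run _ cc st0 w)).1.2 = v0 ∧ (w.map φ).prod = (v.map φ).prod ∧
          sndS m2 (run _ cc st0 w) = s2) ∨
        ((fstS m2 (run _ cc st0 w)).1.2 = v1 ∧ ∃ u : List M,
          sndS m2 (run _ cc st0 w) = run m2 c2 s2 u ∧
          (w.map φ).prod = d (fstS m2 (run _ cc st0 w)).2 *
            ((u.map (LD.letter z)).prod).1 * (v.map φ).prod)) := by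
    intro w
    induction w using List.reverseRecOn with
    | nil =>
      refine ⟨[], by simp, ?_, Or.inl ⟨?_, rfl, ?_⟩⟩
      · show (fstS m2 (mkS (m1 := m1 + 1 + 1) m2 ((s1, v0), v0) s2)).1.1 = s1
        rw [fstS_mkS]
      · show (fstS m2 (mkS (m1 := m1 + 1 + 1) m2 ((s1, v0), v0) s2)).1.2 = v0
        rw [fstS_mkS]
      · show sndS m2 (mkS (m1 := m1 + 1 + 1) m2 ((s1, v0), v0) s2) = s2
        rw [sndS_mkS]
    | append_singleton w a ih =>
      obtain ⟨v, hv1, hS1, hcase⟩ := ih
      set s := run _ cc st0 w with hs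
      have hrun : run _ cc st0 (w ++ [a]) = step _ cc a s := run_snoc _ cc st0 w a
      have hfst : fstS m2 (run _ cc st0 (w ++ [a])) = step _ cX a (fstS m2 s) := by
        rw [hrun]; exact fstS_step_comp cX hh m2 c2 a s
      have hsnd : sndS m2 (run _ cc st0 (w ++ [a])) =
          match hh a (fstS m2 s) with
          | none => sndS m2 s
          | some b => step m2 c2 b (sndS m2 s) := by
        rw [hrun]; exact sndS_step_comp cX hh m2 c2 a s
      set t := fstS m2 s with ht
      have hprod : ((w ++ [a]).map φ).prod = (w.map φ).prod * φ a := by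
        simp
      -- components of the step
      have hc1 : (step _ cX a t).1.1 = if P a then s1 else step m1 c1 a t.1.1 := by
        show step m1 cR a t.1.1 = _
        exact step_resetC P m1 c1 s1 a t.1.1
      have hc2 : (step _ cX a t).1.2 = if P a then v1 else t.1.2 := by
        show ((if P a then some v1 else none : Option V)).getD t.1.2 = _
        by_cases hp : P a <;> simp [hp]
      have hc3 : (step _ cX a t).2 = if P a ∧ t.1.2 = v0 then e (out1 t.1.1) else t.2 := by
        show ((if P a ∧ t.1.2 = v0 then some (e (out1 t.1.1)) else none : Option V)).getD t.2 = _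
        by_cases hp : P a ∧ t.1.2 = v0 <;> simp [hp]
      have hmap : ∀ v : List A, (∀ a ∈ v, φ a ≠ z) →
          (v.map (fun a => if φ a = z then (1 : M) else φ a)).prod = (v.map φ).prod := by
        intro v hv
        congr 1
        apply List.map_congr_left
        intro a ha
        simp [hv a ha]
      have hout1 : out1 t.1.1 = (v.map φ).prod := by
        rw [hS1, H1 v, hmap v hv1]
      by_cases hp : P a
      · have hz : φ a = z := hp
        refine ⟨[], by simp, ?_, Or.inr ⟨?_, ?_⟩⟩
        · rw [hfst, hc1, if_pos hp]; rfl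
        · rw [hfst, hc2, if_pos hp]
        · rcases hcase with ⟨hf, hw, hS2⟩ | ⟨hf, u, hS2, hw⟩
          · refine ⟨[], ?_, ?_⟩
            · rw [hsnd]
              have : hh a t = none := by simp [hh, hf]
              rw [this]
              exact hS2
            · rw [hprod, hw, hfst, hc3, if_pos ⟨hp, hf⟩, hde, hout1, hz]
              simp [LD.val_one]
          · have hf0 : t.1.2 ≠ v0 := by rw [hf]; exact hv.symm
            refine ⟨u ++ [(v.map φ).prod], ?_, ?_⟩
            · rw [hsnd]
              have : hh a t = some (out1 t.1.1) := by simp [hh, hf0, hp]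
              rw [this, run_snoc, hout1]
              show step m2 c2 _ (sndS m2 s) = _
              rw [hS2]
            · rw [hprod, hw, hfst, hc3, if_neg (fun h => hf0 h.2), hz, List.map_append,
                List.prod_append, List.map_singleton, List.prod_singleton, LD.val_mul_letter]
              simp [mul_assoc]
      · have hz : φ a ≠ z := hp
        have hnone : hh a t = none := by simp [hh, hp]
        refine ⟨v ++ [a], ?_, ?_, ?_⟩
        · intro b hb
          rcases List.mem_append.mp hb with h | h
          · exact hv1 b h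
          · rw [List.mem_singleton.mp h]; exact hz
        · rw [hfst, hc1, if_neg hp, run_snoc, hS1]
        · rcases hcase with ⟨hf, hw, hS2⟩ | ⟨hf, u, hS2, hw⟩
          · left
            refine ⟨?_, ?_, ?_⟩
            · rw [hfst, hc2, if_neg hp]; exact hf
            · rw [hprod, hw]; simp
            · rw [hsnd, hnone]; exact hS2
          · right
            refine ⟨?_, u, ?_, ?_⟩
            · rw [hfst, hc2, if_neg hp]; exact hf
            · rw [hsnd, hnone]; exact hS2
            · rw [hprod, hw, hfst, hc3, if_neg (fun h => hp h.1)]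
              simp [mul_assoc]
  intro w
  obtain ⟨v, hv1, hS1, hcase⟩ := key w
  have hmap : (v.map (fun a => if φ a = z then (1 : M) else φ a)).prod = (v.map φ).prod := by
    congr 1
    apply List.map_congr_left
    intro a ha
    simp [hv1 a ha]
  have hout1 : out1 (fstS m2 (run _ cc st0 w)).1.1 = (v.map φ).prod := by
    rw [hS1, H1 v, hmap]
  rcases hcase with ⟨hf, hw, -⟩ | ⟨hf, u, hS2, hw⟩
  · show (if (fstS m2 (run _ cc st0 w)).1.2 = v0 then out1 (fstS m2 (run _ cc st0 w)).1.1
      else _) = _
    rw [if_pos hf, hout1, hw]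
  · have hf0 : (fstS m2 (run _ cc st0 w)).1.2 ≠ v0 := by rw [hf]; exact hv.symm
    show (if (fstS m2 (run _ cc st0 w)).1.2 = v0 then out1 (fstS m2 (run _ cc st0 w)).1.1
      else d (fstS m2 (run _ cc st0 w)).2 * (out2 (sndS m2 (run _ cc st0 w))).1 *
        out1 (fstS m2 (run _ cc st0 w)).1.1) = _
    rw [if_neg hf0, hS2, H2 u, hout1, hw]

theorem good_of_aperiodic (V : Type) (v0 v1 : V) (hv : v0 ≠ v1) :
    ∀ (n : ℕ) (M : Type) [Monoid M] [Finite M], Nat.card M ≤ n →
      (∀ x : M, ∃ k : ℕ, x ^ (k + 1) = x ^ k) →
      (∃ (e : M → V) (d : V → M), ∀ x, d (e x) = x) → ∀ (A : Type) (φ : A → M), Good V φ := by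
  classical
  intro n
  induction n with
  | zero =>
    intro M _ _ hn
    exact absurd (Nat.card_pos (α := M)) (by omega)
  | succ n ih =>
    intro M _ _ hn hap hed A φ
    obtain ⟨e, d, hde⟩ := hed
    have inner : ∀ (j : ℕ) (φ : A → M), Set.ncard {x : M | x ≠ 1 ∧ ∃ a, φ a = x} ≤ j →
        Good V φ := by
      intro j
      induction j with
      | zero =>
        intro φ hj
        apply good_of_one
        intro a
        by_contra ha
        have h0 : {x : M | x ≠ 1 ∧ ∃ a, φ a = x} = ∅ :=
          (Set.ncard_eq_zero (Set.toFinite _)).mp (by omega)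
        have : φ a ∈ {x : M | x ≠ 1 ∧ ∃ a, φ a = x} := ⟨ha, a, rfl⟩
        rw [h0] at this
        exact this
      | succ j ihj =>
        intro φ hj
        by_cases hall : ∀ a, φ a = 1
        · exact good_of_one V φ hall
        · push Not at hall
          obtain ⟨a0, ha0⟩ := hall
          have hLD : Good V (LD.letter (φ a0)) := by
            refine ih (LD M (φ a0)) ?_ (fun p => LD.aperiodic hap p) ?_ M _
            · have := LD.card_lt hap ha0
              omega
            · refine ⟨fun p => e p.1, fun v => if h : ∃ p : LD M (φ a0), p.1 = d v then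
                Classical.choose h else 1, fun p => ?_⟩
              have h : ∃ p' : LD M (φ a0), p'.1 = d (e p.1) := ⟨p, (hde _).symm⟩
              show (if h : ∃ p' : LD M (φ a0), p'.1 = d (e p.1) then
                Classical.choose h else 1) = p
              rw [dif_pos h]
              apply LD.ext
              rw [Classical.choose_spec h, hde]
          refine good_step V v0 v1 hv e d hde φ (φ a0) (ihj _ ?_) hLD
          have hsub : {x : M | x ≠ 1 ∧ ∃ a, (if φ a = φ a0 then (1 : M) else φ a) = x} ⊂
              {x : M | x ≠ 1 ∧ ∃ a, φ a = x} := by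
            refine ⟨?_, ?_⟩
            · rintro x ⟨hx, a, ha⟩
              by_cases h : φ a = φ a0
              · rw [if_pos h] at ha
                exact absurd ha.symm hx
              · rw [if_neg h] at ha
                exact ⟨hx, a, ha⟩
            · intro hs
              obtain ⟨hx, a, ha⟩ := hs (show φ a0 ∈ {x : M | x ≠ 1 ∧ ∃ a, φ a = x} from
                ⟨ha0, a0, rfl⟩)
              by_cases h : φ a = φ a0
              · rw [if_pos h] at ha
                exact ha0 ha.symm
              · rw [if_neg h] at ha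
                exact h ha
          have := Set.ncard_lt_ncard hsub (Set.toFinite _)
          omega
    exact inner _ φ le_rfl

/-- Krohn-Rhodes theorem for a finite aperiodic monoid `M`: the product in `M` of a word is a
function of the state of a cascade of reset registers with at most `max 2 |M|` values. -/
theorem krohnRhodes (M : Type) [Monoid M] [Finite M]
    (hap : ∀ x : M, ∃ k : ℕ, x ^ (k + 1) = x ^ k) (w : ℕ) (hw : 2 ≤ w) (hM : Nat.card M ≤ w) :
    ∃ (m : ℕ) (c : Casc M (Fin w) m) (s0 : St (Fin w) m) (out : St (Fin w) m → M),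
      ∀ l : List M, out (run m c s0 l) = l.prod := by
  classical
  have e : M ↪ Fin w := by
    haveI := Fintype.ofFinite M
    refine Classical.choice (Function.Embedding.nonempty_of_card_le ?_)
    rw [Nat.card_eq_fintype_card] at hM
    simpa using hM
  have hne : (⟨0, by omega⟩ : Fin w) ≠ ⟨1, by omega⟩ := by
    intro h
    simpa using congrArg Fin.val h
  obtain ⟨m, c, s0, out, H⟩ := good_of_aperiodic (Fin w) ⟨0, by omega⟩ ⟨1, by omega⟩ hne
    (Nat.card M) M le_rfl hap ⟨e, Function.invFun e, Function.leftInverse_invFun e.injective⟩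
    M id
  exact ⟨m, c, s0, out, fun l => by rw [H l, List.map_id]⟩

/-! ### Flat form -/

/-- The flat form of a cascade: register `j` at letter `a`. -/
def flat {A V : Type} : (m : ℕ) → Casc A V m → Fin m → A → (Fin m → V) → Option V
  | 0, _, j, _, _ => j.elim0
  | m + 1, c, j, a, s =>
    if h : j.val < m then flat m c.1 ⟨j.val, h⟩ a (fun i => s i.castSucc)
    else c.2 a (unflatten m (fun i => s i.castSucc))
where
  /-- from functions to nested pairs -/
  unflatten {V : Type} : (m : ℕ) → (Fin m → V) → St V m
  | 0, _ => ()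
  | m + 1, s => (unflatten m (fun i => s i.castSucc), s (Fin.last m))

/-- One step of a flat cascade. -/
def stepF {A V : Type} {m : ℕ} (g : Fin m → A → (Fin m → V) → Option V) (a : A)
    (s : Fin m → V) : Fin m → V := fun j => (g j a s).getD (s j)

theorem flat_lower {A V : Type} : ∀ (m : ℕ) (c : Casc A V m) (j : Fin m) (a : A)
    (s s' : Fin m → V), (∀ i, i < j → s i = s' i) → flat m c j a s = flat m c j a s'
  | 0, _, j, _, _, _, _ => j.elim0
  | m + 1, c, j, a, s, s', h => by
      unfold flat
      by_cases hj : j.val < m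
      · rw [dif_pos hj, dif_pos hj]
        apply flat_lower m
        intro i hi
        apply h
        exact hi
      · rw [dif_neg hj, dif_neg hj]
        have : (fun i : Fin m => s i.castSucc) = fun i => s' i.castSucc := by
          funext i
          apply h
          show i.val < j.val
          have := i.2
          omega
        rw [this]

theorem unflatten_step {A V : Type} : ∀ (m : ℕ) (c : Casc A V m) (a : A) (s : Fin m → V),
    flat.unflatten m (stepF (flat m c) a s) = step m c a (flat.unflatten m s)
  | 0, _, _, _ => rfl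
  | m + 1, c, a, s => by
      show (flat.unflatten m (fun i => stepF (flat (m + 1) c) a s i.castSucc),
        stepF (flat (m + 1) c) a s (Fin.last m)) =
        (step m c.1 a (flat.unflatten m (fun i => s i.castSucc)),
          (c.2 a (flat.unflatten m (fun i => s i.castSucc))).getD (s (Fin.last m)))
      have h1 : (fun i : Fin m => stepF (flat (m + 1) c) a s i.castSucc) =
          stepF (flat m c.1) a (fun i => s i.castSucc) := by
        funext i
        show (flat (m + 1) c i.castSucc a s).getD (s i.castSucc) = _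
        have : flat (m + 1) c i.castSucc a s = flat m c.1 i a (fun i => s i.castSucc) := by
          show (if h : i.castSucc.val < m then flat m c.1 ⟨i.castSucc.val, h⟩ a
            (fun i => s i.castSucc) else _) = _
          rw [dif_pos (show i.castSucc.val < m from i.2)]
          rfl
        rw [this]
        rfl
      have h2 : stepF (flat (m + 1) c) a s (Fin.last m) =
          (c.2 a (flat.unflatten m (fun i => s i.castSucc))).getD (s (Fin.last m)) := by
        show (flat (m + 1) c (Fin.last m) a s).getD (s (Fin.last m)) = _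
        have : flat (m + 1) c (Fin.last m) a s =
            c.2 a (flat.unflatten m (fun i => s i.castSucc)) := by
          show (if h : (Fin.last m).val < m then _ else
            c.2 a (flat.unflatten m (fun i => s i.castSucc))) = _
          rw [dif_neg (by simp)]
        rw [this]
      rw [h1, h2, unflatten_step m c.1 a]

theorem unflatten_surj {V : Type} : ∀ (m : ℕ) (t : St V m), ∃ s : Fin m → V,
    flat.unflatten m s = t
  | 0, t => ⟨fun i => i.elim0, (fun (x y : Unit) => (rfl : x = y)) _ t⟩
  | m + 1, t => by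
      obtain ⟨s, hs⟩ := unflatten_surj m t.1
      refine ⟨Fin.snoc s t.2, ?_⟩
      show (flat.unflatten m (fun i => (Fin.snoc s t.2 : Fin (m + 1) → V) i.castSucc),
        (Fin.snoc s t.2 : Fin (m + 1) → V) (Fin.last m)) = t
      have : (fun i : Fin m => (Fin.snoc s t.2 : Fin (m + 1) → V) i.castSucc) = s := by
        funext i
        simp
      rw [this, hs]
      simp

/-- Krohn-Rhodes for a finite aperiodic monoid, flat form: `m` registers with values in
`Fin w`, register `j` is kept (`none`) or overwritten depending on the letter and on the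
registers `< j` only. -/
theorem krohnRhodesFlat (M : Type) [Monoid M] [Finite M]
    (hap : ∀ x : M, ∃ k : ℕ, x ^ (k + 1) = x ^ k) (w : ℕ) (hw : 2 ≤ w) (hM : Nat.card M ≤ w) :
    ∃ (m : ℕ) (g : Fin m → M → (Fin m → Fin w) → Option (Fin w)) (s0 : Fin m → Fin w)
      (out : (Fin m → Fin w) → M),
      (∀ j a s s', (∀ i, i < j → s i = s' i) → g j a s = g j a s') ∧
      ∀ l : List M, out (l.foldl (fun s a => stepF g a s) s0) = l.prod := by
  obtain ⟨m, c, s0, out, H⟩ := krohnRhodes M hap w hw hM
  obtain ⟨t0, ht0⟩ := unflatten_surj m s0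
  have hrun : ∀ l : List M, flat.unflatten m (l.foldl (fun s a => stepF (flat m c) a s) t0) =
      run m c s0 l := by
    intro l
    induction l using List.reverseRecOn with
    | nil => exact ht0
    | append_singleton l a ih =>
      rw [List.foldl_append, run_snoc, ← ih]
      exact unflatten_step m c a _
  refine ⟨m, flat m c, t0, fun s => out (flat.unflatten m s), flat_lower m c, fun l => ?_⟩
  rw [← H l]
  exact congrArg out (hrun l)

end Pool.Agent.Helper45.KR
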