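import Pool.Agent.Helper4.RC.Defs
import Pool.Agent.Helper45.KR.Main

/-!
Krohn-Rhodes for finite aperiodic monoids in terms of the instructions `Helper4.RC.Instr`.
-/

namespace Pool.Agent.Helper45.KR

open Helper4.RC

theorem endSt_foldl {V Y A : Type} (T : A → V → V) (f : ℕ → Y → A) (q : V) :
    ∀ (n : ℕ) (x : Fin n → Y), endSt (fun i b => T (f i b)) q n x =
      (List.ofFn (fun i : Fin n => f i (x i))).foldl (fun s a => T a s) q
  | 0, _ => by simp [endSt]
  | n + 1, x => by
      rw [List.ofFn_succ', List.concat_eq_append, List.foldl_append]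
      show T (f n (x (Fin.last n))) (endSt (fun i b => T (f i b)) q n fun i => x i.castSucc) = _
      rw [endSt_foldl T f q n]
      rfl

/-- Krohn-Rhodes: the product of a read-once program over a finite aperiodic monoid is a
function of the final state of a cascade of reset registers (`w` values for any `w` with
`2 ≤ w` and `|M| ≤ w`). -/
theorem kr_instr (M : Type) [Monoid M] [Finite M]
    (hap : ∀ x : M, ∃ k : ℕ, x ^ (k + 1) = x ^ k) (w : ℕ) (hw : 2 ≤ w) (hM : Nat.card M ≤ w) :
    ∃ (m : ℕ) (I : M → Instr m w) (q : Fin m → Fin w) (out : (Fin m → Fin w) → M),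
      ∀ (Y : Type) (n : ℕ) (f : ℕ → Y → M) (x : Fin n → Y),
        out (endSt (fun i b => (I (f i b)).act) q n x) =
          (List.ofFn (fun i : Fin n => f i (x i))).prod := by
  obtain ⟨m, g, s0, out, hg, H⟩ := krohnRhodesFlat M hap w hw hM
  refine ⟨m, fun a => ⟨fun j q => g j a q, fun j q q' h => hg j a q q' h⟩, s0, out,
    fun Y n f x => ?_⟩
  rw [endSt_foldl (fun a : M => (⟨fun j q => g j a q, fun j q q' h => hg j a q q' h⟩ :
    Instr m w).act) f s0 n x, ← H]
  rfl

end Pool.Agent.Helper45.KR
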